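import Pool.Agent.Q211.CC.Odd

set_option autoImplicit false
set_option linter.unusedSectionVars false

/-!
There is no faithful circuit cover of the weight if `k` is odd.
-/

namespace Pool.Agent.Q211.CC

open Finset
open Pool.Agent.H126R2.CDC (MGraph)
open Pool.Agent.W51.FCC

section graph

variable {V E : Type} [Fintype V] [DecidableEq V] [Fintype E] [DecidableEq E] {G : MGraph V E}

/-- the edge set is contained in the subdivision -/
def InP (P : PetersenSubdivision G) (C : Finset E) : Prop :=
  ∀ e ∈ C, ∃ j i, i ≤ P.len j ∧ e = P.ed j i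

/-- all degrees are `0` or `2` -/
def Deg2 (G : MGraph V E) (C : Finset E) : Prop := ∀ v, G.deg C v = 0 ∨ G.deg C v = 2

theorem deg_eq (P : PetersenSubdivision G) {C : Finset E} (hC : InP P C) (v : V) :
    G.deg C v = (C.filter fun e => v ∈ G.ends e).card := by
  unfold MGraph.deg
  have h : (C.filter fun e => G.ends e = s(v, v)) = ∅ := by
    refine Finset.filter_eq_empty_iff.2 fun e he h1 => ?_
    obtain ⟨j, i, hi, rfl⟩ := hC e he
    rw [P.ends j i hi, Sym2.eq_iff] at h1
    rcases h1 with ⟨h2, h3⟩ | ⟨h2, h3⟩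
    · exact vx_ne P j i hi (h2.trans h3.symm)
    · exact vx_ne P j i hi (h2.trans h3.symm)
  rw [h, card_empty, add_zero]

/-- the edges at an inner vertex -/
theorem inner_edges (P : PetersenSubdivision G) {C : Finset E} (hC : InP P C) (j : Fin 15)
    (i : ℕ) (hi : i + 1 ≤ P.len j) :
    (C.filter fun e => P.vx j (i + 1) ∈ G.ends e) ⊆ {P.ed j i, P.ed j (i + 1)} := by
  intro e he
  rw [mem_filter] at he
  obtain ⟨j', i', hi', rfl⟩ := hC e he.1
  have h1 := he.2
  rw [P.ends j' i' hi', Sym2.mem_iff] at h1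
  rw [mem_insert, mem_singleton]
  rcases h1 with h1 | h1
  · obtain ⟨h2, h3⟩ := pos_inner P (by omega) hi (by omega) h1
    subst h2
    rw [← h3]
    exact Or.inr rfl
  · obtain ⟨h2, h3⟩ := pos_inner P (by omega) hi (by omega) h1
    subst h2
    have h4 : i = i' := by omega
    rw [h4]
    exact Or.inl rfl

theorem step (P : PetersenSubdivision G) {C : Finset E} (hC : InP P C) (hD : Deg2 G C)
    (j : Fin 15) (i : ℕ) (hi : i + 1 ≤ P.len j) : P.ed j i ∈ C ↔ P.ed j (i + 1) ∈ C := by
  have hsub := inner_edges P hC j i hi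
  have hd := hD (P.vx j (i + 1))
  rw [deg_eq P hC] at hd
  have e1 : P.vx j (i + 1) ∈ G.ends (P.ed j i) := by
    rw [P.ends j i (by omega)]
    exact Sym2.mem_mk_right _ _
  have e2 : P.vx j (i + 1) ∈ G.ends (P.ed j (i + 1)) := by
    rw [P.ends j (i + 1) hi]
    exact Sym2.mem_mk_left _ _
  have key : (∃ e ∈ C, P.vx j (i + 1) ∈ G.ends e) → P.ed j i ∈ C ∧ P.ed j (i + 1) ∈ C := by
    rintro ⟨e, he, hv⟩
    have h1 : e ∈ C.filter fun e => P.vx j (i + 1) ∈ G.ends e := mem_filter.2 ⟨he, hv⟩
    have h2 : (C.filter fun e => P.vx j (i + 1) ∈ G.ends e).card = 2 := by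
      rcases hd with h | h
      · rw [Finset.card_eq_zero] at h
        rw [h] at h1
        exact absurd h1 (Finset.notMem_empty e)
      · exact h
    have h3 : (C.filter fun e => P.vx j (i + 1) ∈ G.ends e) = {P.ed j i, P.ed j (i + 1)} := by
      refine Finset.eq_of_subset_of_card_le hsub ?_
      rw [h2]
      exact Finset.card_le_two
    constructor
    · have h4 : P.ed j i ∈ C.filter fun e => P.vx j (i + 1) ∈ G.ends e := by
        rw [h3]; simp
      exact (mem_filter.1 h4).1
    · have h4 : P.ed j (i + 1) ∈ C.filter fun e => P.vx j (i + 1) ∈ G.ends e := by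
        rw [h3]; simp
      exact (mem_filter.1 h4).1
  constructor
  · intro h
    exact (key ⟨_, h, e1⟩).2
  · intro h
    exact (key ⟨_, h, e2⟩).1

theorem all_iff (P : PetersenSubdivision G) {C : Finset E} (hC : InP P C) (hD : Deg2 G C)
    (j : Fin 15) (i : ℕ) (hi : i ≤ P.len j) : P.ed j i ∈ C ↔ P.ed j 0 ∈ C := by
  induction i with
  | zero => exact Iff.rfl
  | succ i ih => rw [← ih (by omega), step P hC hD j i hi]

/-- the indicator of the path `j` in `C` -/
def xx (P : PetersenSubdivision G) (C : Finset E) (j : Fin 15) : ℕ :=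
  if P.ed j 0 ∈ C then 1 else 0

theorem xx_le (P : PetersenSubdivision G) (C : Finset E) (j : Fin 15) : xx P C j ≤ 1 := by
  unfold xx
  split_ifs <;> omega

theorem deg_br (P : PetersenSubdivision G) {C : Finset E} (hC : InP P C)
    (hall : ∀ j i, i ≤ P.len j → (P.ed j i ∈ C ↔ P.ed j 0 ∈ C)) (a : Fin 10) : G.deg C (P.br a) = xx P C (J0 a) + xx P C (J1 a) + xx P C (J2 a) := by
  rw [deg_eq P hC]
  let g : Fin 15 → E := fun j => if pa j = a then P.ed j 0 else P.ed j (P.len j)
  have h1 : (C.filter fun e => P.br a ∈ G.ends e) =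
      ((univ.filter (fun j : Fin 15 => pa j = a ∨ pb j = a)).filter
        (fun j => P.ed j 0 ∈ C)).image g := by
    ext e
    rw [mem_filter, mem_image]
    constructor
    · rintro ⟨he, hv⟩
      obtain ⟨j, i, hi, rfl⟩ := hC e he
      rw [P.ends j i hi, Sym2.mem_iff] at hv
      rcases hv with hv | hv
      · rcases pos_br P (by omega) hv.symm with ⟨h2, h3⟩ | ⟨h2, h3⟩
        · refine ⟨j, ?_, ?_⟩
          · rw [mem_filter, mem_filter]
            exact ⟨⟨mem_univ _, Or.inl h3⟩, (hall j i hi).1 he⟩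
          · show (if pa j = a then P.ed j 0 else P.ed j (P.len j)) = P.ed j i
            rw [if_pos h3, h2]
        · omega
      · rcases pos_br P (by omega) hv.symm with ⟨h2, h3⟩ | ⟨h2, h3⟩
        · omega
        · refine ⟨j, ?_, ?_⟩
          · rw [mem_filter, mem_filter]
            exact ⟨⟨mem_univ _, Or.inr h3⟩, (hall j i hi).1 he⟩
          · show (if pa j = a then P.ed j 0 else P.ed j (P.len j)) = P.ed j i
            have h4 : pa j ≠ a := fun h => pa_ne_pb j (h.trans h3.symm)
            rw [if_neg h4]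
            have h5 : i = P.len j := by omega
            rw [h5]
    · rintro ⟨j, hj, rfl⟩
      rw [mem_filter, mem_filter] at hj
      obtain ⟨⟨-, h2⟩, h3⟩ := hj
      show (if pa j = a then P.ed j 0 else P.ed j (P.len j)) ∈ C ∧
        P.br a ∈ G.ends (if pa j = a then P.ed j 0 else P.ed j (P.len j))
      by_cases h4 : pa j = a
      · rw [if_pos h4]
        refine ⟨h3, ?_⟩
        rw [P.ends j 0 (Nat.zero_le _), ← h4, ← P.start j]
        exact Sym2.mem_mk_left _ _
      · rw [if_neg h4]
        refine ⟨(hall j _ le_rfl).2 h3, ?_⟩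
        rw [P.ends j _ le_rfl, ← h2.resolve_left h4, ← P.stop j]
        exact Sym2.mem_mk_right _ _
  have hinj : Function.Injective g := by
    intro j j' h
    have h2 : (if pa j = a then P.ed j 0 else P.ed j (P.len j)) =
      (if pa j' = a then P.ed j' 0 else P.ed j' (P.len j')) := h
    split_ifs at h2
    · exact (P.ed_inj j _ j' _ (by omega) (by omega) h2).1
    · exact (P.ed_inj j _ j' _ (by omega) (by omega) h2).1
    · exact (P.ed_inj j _ j' _ (by omega) (by omega) h2).1
    · exact (P.ed_inj j _ j' _ (by omega) (by omega) h2).1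
  rw [h1, Finset.card_image_of_injective _ hinj, Finset.card_filter, star a]
  obtain ⟨n1, n2, n3⟩ := star_ne a
  rw [Finset.sum_insert (by simp [n1, n2]), Finset.sum_insert (by simp [n3]),
    Finset.sum_singleton, ← add_assoc]
  rfl

end graph

/-! ### Sums over a multiset -/

theorem sum_ind {α : Type} (F : Multiset α) (p : α → Prop) [DecidablePred p] :
    (F.map fun C => if p C then 1 else 0).sum = F.countP p := by
  induction F using Multiset.induction_on with
  | empty => simp
  | cons a F ih =>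
    rw [Multiset.map_cons, Multiset.sum_cons, ih, Multiset.countP_cons]
    ring

theorem eq_of_sum {α : Type} (F : Multiset α) (f g : α → ℕ) (h : ∀ C ∈ F, f C ≤ g C)
    (hs : (F.map g).sum ≤ (F.map f).sum) : ∀ C ∈ F, f C = g C := by
  induction F using Multiset.induction_on with
  | empty => intro C hC; exact absurd hC (Multiset.notMem_zero C)
  | cons a F ih =>
    have h1 : (F.map f).sum ≤ (F.map g).sum :=
      Multiset.sum_map_le_sum_map f g fun C hC => h C (Multiset.mem_cons_of_mem hC)
    have h2 := h a (Multiset.mem_cons_self a F)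
    rw [Multiset.map_cons, Multiset.sum_cons, Multiset.map_cons, Multiset.sum_cons] at hs
    intro C hC
    rcases Multiset.mem_cons.1 hC with rfl | hC
    · omega
    · exact ih (fun C hC => h C (Multiset.mem_cons_of_mem hC)) (by omega) C hC

section graph

variable {V E : Type} [Fintype V] [DecidableEq V] [Fintype E] [DecidableEq E] {G : MGraph V E}

theorem parity (x : Fin 15 → ℕ) (h1 : ∀ j, x j ≤ 1) (h2 : ∀ a, x (J0 a) + x (J1 a) = x (J2 a)) :
    (x 0 + x 1 + x 2 + x 3 + x 4) % 2 = 0 := by
  have a0 : x 0 + x 4 = x 5 := h2 0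
  have a1 : x 1 + x 0 = x 6 := h2 1
  have a2 : x 2 + x 1 = x 7 := h2 2
  have a3 : x 3 + x 2 = x 8 := h2 3
  have a4 : x 4 + x 3 = x 9 := h2 4
  have a5 : x 10 + x 13 = x 5 := h2 5
  have a6 : x 11 + x 14 = x 6 := h2 6
  have a7 : x 12 + x 10 = x 7 := h2 7
  have a8 : x 13 + x 11 = x 8 := h2 8
  have a9 : x 14 + x 12 = x 9 := h2 9
  have b5 := h1 5
  have b6 := h1 6
  have b7 := h1 7
  have b8 := h1 8
  have b9 := h1 9
  rcases (by omega : x 0 = 0 ∨ x 0 = 1) with c0 | c0 <;>
    rcases (by omega : x 1 = 0 ∨ x 1 = 1) with c1 | c1 <;>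
    rcases (by omega : x 2 = 0 ∨ x 2 = 1) with c2 | c2 <;>
    rcases (by omega : x 3 = 0 ∨ x 3 = 1) with c3 | c3 <;>
    rcases (by omega : x 4 = 0 ∨ x 4 = 1) with c4 | c4 <;> omega

/-- a family of subgraphs with all degrees `0` or `2` covers the weight only if `k` is even -/
theorem even_of_cover (P : PetersenSubdivision G) (k : ℕ) (F : Multiset (Finset E))
    (hF : ∀ C ∈ F, Deg2 G C) (hw : ∀ e, F.countP (fun C => e ∈ C) = wgt P k e) : Even k := by
  have hin : ∀ C ∈ F, InP P C := by
    intro C hC e he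
    rcases wgt_cases P k e with h | h
    · exfalso
      rw [← hw e, Multiset.countP_eq_zero] at h
      exact h C hC he
    · exact h
  have hsum : ∀ j, (F.map fun C => xx P C j).sum = wt k j := by
    intro j
    have h1 := sum_ind F (fun C => P.ed j 0 ∈ C)
    rw [hw, wgt_ed P k j 0 (Nat.zero_le _)] at h1
    exact h1
  have hrel : ∀ a, ∀ C ∈ F, xx P C (J2 a) = xx P C (J0 a) + xx P C (J1 a) := by
    intro a
    refine eq_of_sum F (fun C => xx P C (J2 a)) (fun C => xx P C (J0 a) + xx P C (J1 a)) ?_ ?_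
    · intro C hC
      have h1 := hF C hC (P.br a)
      rw [deg_br P (hin C hC) (all_iff P (hin C hC) (hF C hC)) a] at h1
      have h2 := xx_le P C (J0 a)
      have h3 := xx_le P C (J1 a)
      have h4 := xx_le P C (J2 a)
      show xx P C (J2 a) ≤ xx P C (J0 a) + xx P C (J1 a)
      omega
    · rw [Multiset.sum_map_add, hsum, hsum, hsum]
      revert a
      intro a
      fin_cases a <;> simp [wt, J0, J1, J2] <;> omega
  have hpar : 2 ∣ (F.map fun C => xx P C 0 + xx P C 1 + xx P C 2 + xx P C 3 + xx P C 4).sum := by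
    refine Multiset.dvd_sum fun y hy => ?_
    obtain ⟨C, hC, rfl⟩ := Multiset.mem_map.1 hy
    exact Nat.dvd_of_mod_eq_zero (parity (xx P C) (xx_le P C) fun a => (hrel a C hC).symm)
  rw [Multiset.sum_map_add, Multiset.sum_map_add, Multiset.sum_map_add, Multiset.sum_map_add,
    hsum, hsum, hsum, hsum, hsum] at hpar
  have e0 : wt k 0 = k := rfl
  have e1 : wt k 1 = k := rfl
  have e2 : wt k 2 = k := rfl
  have e3 : wt k 3 = k := rfl
  have e4 : wt k 4 = k := rfl
  rw [e0, e1, e2, e3, e4] at hpar
  rw [even_iff_two_dvd]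
  omega

/-- for odd `k` the weight has no faithful circuit cover -/
theorem no_cover (P : PetersenSubdivision G) (k : ℕ) (hk : Odd k) : ¬ HasCover G (wgt P k) := by
  rintro ⟨F, hF, hw⟩
  exact (Nat.not_even_iff_odd.2 hk) (even_of_cover P k F (fun C hC => (hF C hC).2.1) hw)

theorem wgt_values (P : PetersenSubdivision G) (k : ℕ) (e : E) :
    wgt P k e = 0 ∨ wgt P k e = k ∨ wgt P k e = 2 * k := by
  rcases wgt_cases P k e with h | ⟨j, i, hi, rfl⟩
  · exact Or.inl h
  · rw [wgt_ed P k j i hi]
    unfold wt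
    split_ifs
    · exact Or.inr (Or.inr rfl)
    · exact Or.inr (Or.inl rfl)

end graph

end Pool.Agent.Q211.CC
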