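import Pool.Agent.Q211.CC.Cov

set_option autoImplicit false
set_option linter.unusedSectionVars false

/-!
The weight has a faithful circuit cover if `k` is even: the five circuits of length `8` of the
Petersen graph which avoid one spoke.
-/

namespace Pool.Agent.Q211.CC

open Finset
open Pool.Agent.H126R2.CDC (MGraph)
open Pool.Agent.W51.FCC

/-- the edges of the circuit which avoids the spoke `t`, in cyclic order -/
def DL : Fin 5 → Fin 8 → Fin 15 :=
  ![![1, 7, 12, 9, 3, 8, 11, 6], ![2, 8, 13, 5, 4, 9, 12, 7], ![3, 9, 14, 6, 0, 5, 13, 8],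
    ![4, 5, 10, 7, 1, 6, 14, 9], ![0, 6, 11, 8, 2, 7, 10, 5]]

/-- the edges of the circuit which avoids the spoke `t` -/
def DD (t : Fin 5) (j : Fin 15) : Bool := decide (∃ m, DL t m = j)

theorem DD_deg : ∀ (t : Fin 5) (a : Fin 10),
    ((DD t (J0 a)).toNat + (DD t (J1 a)).toNat + (DD t (J2 a)).toNat = 0) ∨
    ((DD t (J0 a)).toNat + (DD t (J1 a)).toNat + (DD t (J2 a)).toNat = 2) := by decide

theorem DD_count : ∀ j : Fin 15, (univ.filter (fun t : Fin 5 => DD t j = true)).card = wt 2 j := by
  decide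

theorem DD_step : ∀ (t : Fin 5) (m : Fin 7), ∃ a : Fin 10,
    (pa (DL t m.castSucc) = a ∨ pb (DL t m.castSucc) = a) ∧
    (pa (DL t m.succ) = a ∨ pb (DL t m.succ) = a) := by decide

section graph

variable {V E : Type} [Fintype V] [DecidableEq V] [Fintype E] [DecidableEq E] {G : MGraph V E}

/-- the circuit of the subdivision -/
def CL (P : PetersenSubdivision G) (t : Fin 5) : Finset E :=
  (univ.filter (fun j : Fin 15 => DD t j = true)).biUnion
    (fun j => (range (P.len j + 1)).image (P.ed j))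

theorem mem_CL (P : PetersenSubdivision G) (t : Fin 5) (e : E) :
    e ∈ CL P t ↔ ∃ j i, DD t j = true ∧ i ≤ P.len j ∧ e = P.ed j i := by
  unfold CL
  rw [mem_biUnion]
  constructor
  · rintro ⟨j, hj, he⟩
    rw [mem_image] at he
    obtain ⟨i, hi, rfl⟩ := he
    exact ⟨j, i, (mem_filter.1 hj).2, Nat.lt_succ_iff.1 (mem_range.1 hi), rfl⟩
  · rintro ⟨j, i, hj, hi, rfl⟩
    exact ⟨j, mem_filter.2 ⟨mem_univ _, hj⟩, mem_image.2 ⟨i, mem_range.2 (Nat.lt_succ_iff.2 hi), rfl⟩⟩

theorem ed_mem_CL (P : PetersenSubdivision G) (t : Fin 5) (j : Fin 15) (i : ℕ)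
    (hi : i ≤ P.len j) : P.ed j i ∈ CL P t ↔ DD t j = true := by
  rw [mem_CL]
  constructor
  · rintro ⟨j', i', hj', hi', h⟩
    rw [(P.ed_inj j i j' i' hi hi' h).1]
    exact hj'
  · intro h
    exact ⟨j, i, h, hi, rfl⟩

theorem inP_CL (P : PetersenSubdivision G) (t : Fin 5) : InP P (CL P t) := by
  intro e he
  obtain ⟨j, i, _, hi, h⟩ := (mem_CL P t e).1 he
  exact ⟨j, i, hi, h⟩

theorem deg_CL (P : PetersenSubdivision G) (t : Fin 5) (v : V) :
    G.deg (CL P t) v = 0 ∨ G.deg (CL P t) v = 2 := by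
  by_cases h1 : ∃ a, v = P.br a
  · obtain ⟨a, rfl⟩ := h1
    have hall : ∀ j i, i ≤ P.len j → (P.ed j i ∈ CL P t ↔ P.ed j 0 ∈ CL P t) := by
      intro j i hi
      rw [ed_mem_CL P t j i hi, ed_mem_CL P t j 0 (Nat.zero_le _)]
    rw [deg_br P (inP_CL P t) hall a]
    have hx : ∀ j, xx P (CL P t) j = (DD t j).toNat := by
      intro j
      unfold xx
      by_cases h2 : DD t j = true
      · rw [if_pos ((ed_mem_CL P t j 0 (Nat.zero_le _)).2 h2), h2]
        rfl
      · rw [if_neg (fun h => h2 ((ed_mem_CL P t j 0 (Nat.zero_le _)).1 h))]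
        rw [Bool.not_eq_true] at h2
        rw [h2]
        rfl
    rw [hx, hx, hx]
    exact DD_deg t a
  · rw [deg_eq P (inP_CL P t)]
    by_cases h2 : ∃ j i, i + 1 ≤ P.len j ∧ v = P.vx j (i + 1)
    · obtain ⟨j, i, hi, rfl⟩ := h2
      have hsub := inner_edges P (inP_CL P t) j i hi
      by_cases h3 : DD t j = true
      · right
        have h4 : ((CL P t).filter fun e => P.vx j (i + 1) ∈ G.ends e) =
            {P.ed j i, P.ed j (i + 1)} := by
          refine Finset.Subset.antisymm hsub ?_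
          intro e he
          rw [mem_insert, mem_singleton] at he
          rw [mem_filter]
          rcases he with rfl | rfl
          · refine ⟨(ed_mem_CL P t j i (by omega)).2 h3, ?_⟩
            rw [P.ends j i (by omega)]
            exact Sym2.mem_mk_right _ _
          · refine ⟨(ed_mem_CL P t j (i + 1) hi).2 h3, ?_⟩
            rw [P.ends j (i + 1) hi]
            exact Sym2.mem_mk_left _ _
        rw [h4]
        refine Finset.card_pair ?_
        intro h
        have h5 := (P.ed_inj j i j (i + 1) (by omega) hi h).2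
        omega
      · left
        rw [Finset.card_eq_zero]
        refine Finset.eq_empty_of_forall_notMem fun e he => ?_
        have h4 := hsub he
        rw [mem_insert, mem_singleton] at h4
        rcases h4 with rfl | rfl
        · exact h3 ((ed_mem_CL P t j i (by omega)).1 (mem_filter.1 he).1)
        · exact h3 ((ed_mem_CL P t j (i + 1) hi).1 (mem_filter.1 he).1)
    · left
      rw [Finset.card_eq_zero]
      refine Finset.eq_empty_of_forall_notMem fun e he => ?_
      rw [mem_filter] at he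
      obtain ⟨j, i, hi, rfl⟩ := inP_CL P t e he.1
      have h3 := he.2
      rw [P.ends j i hi, Sym2.mem_iff] at h3
      rcases h3 with h3 | h3
      · rcases Nat.eq_zero_or_pos i with h4 | h4
        · rw [h4, P.start j] at h3
          exact h1 ⟨_, h3⟩
        · obtain ⟨i', rfl⟩ : ∃ i', i = i' + 1 := ⟨i - 1, by omega⟩
          exact h2 ⟨j, i', hi, h3⟩
      · rcases Nat.lt_or_ge (P.len j) (i + 1) with h4 | h4
        · have h5 : i + 1 = P.len j + 1 := by omega
          rw [h5, P.stop j] at h3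
          exact h1 ⟨_, h3⟩
        · exact h2 ⟨j, i, h4, h3⟩

/-- both edges are in `C` and they share a vertex -/
def Sh (G : MGraph V E) (C : Finset E) (a b : E) : Prop :=
  a ∈ C ∧ b ∈ C ∧ ∃ v, v ∈ G.ends a ∧ v ∈ G.ends b

theorem Sh_symm {C : Finset E} {a b : E} (h : Sh G C a b) : Sh G C b a := by
  obtain ⟨h1, h2, v, h3, h4⟩ := h
  exact ⟨h2, h1, v, h4, h3⟩

theorem rtg_symm {C : Finset E} {a b : E} (h : Relation.ReflTransGen (Sh G C) a b) :
    Relation.ReflTransGen (Sh G C) b a := by
  induction h with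
  | refl => exact Relation.ReflTransGen.refl
  | tail _ h2 ih => exact Relation.ReflTransGen.head (Sh_symm h2) ih

theorem rtg_mono {C : Finset E} {e f : E} (h : Relation.ReflTransGen (Sh G C) e f) :
    Relation.ReflTransGen (fun a b => b ∈ C ∧ ∃ v, v ∈ G.ends a ∧ v ∈ G.ends b) e f := by
  induction h with
  | refl => exact Relation.ReflTransGen.refl
  | tail _ h2 ih => exact ih.tail ⟨h2.2.1, h2.2.2⟩

theorem conn_path (P : PetersenSubdivision G) (t : Fin 5) (j : Fin 15) (hj : DD t j = true)
    (i : ℕ) (hi : i ≤ P.len j) :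
    Relation.ReflTransGen (Sh G (CL P t)) (P.ed j 0) (P.ed j i) := by
  induction i with
  | zero => exact Relation.ReflTransGen.refl
  | succ i ih =>
    refine (ih (by omega)).tail ⟨(ed_mem_CL P t j i (by omega)).2 hj,
      (ed_mem_CL P t j (i + 1) hi).2 hj, P.vx j (i + 1), ?_, ?_⟩
    · rw [P.ends j i (by omega)]
      exact Sym2.mem_mk_right _ _
    · rw [P.ends j (i + 1) hi]
      exact Sym2.mem_mk_left _ _

/-- the end of a path at a branch vertex -/
theorem end_edge (P : PetersenSubdivision G) (j : Fin 15) (a : Fin 10)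
    (h : pa j = a ∨ pb j = a) : ∃ i, i ≤ P.len j ∧ P.br a ∈ G.ends (P.ed j i) := by
  rcases h with h | h
  · refine ⟨0, Nat.zero_le _, ?_⟩
    rw [P.ends j 0 (Nat.zero_le _), ← h, ← P.start j]
    exact Sym2.mem_mk_left _ _
  · refine ⟨P.len j, le_rfl, ?_⟩
    rw [P.ends j _ le_rfl, ← h, ← P.stop j]
    exact Sym2.mem_mk_right _ _

theorem conn_adj (P : PetersenSubdivision G) (t : Fin 5) (j j' : Fin 15) (hj : DD t j = true)
    (hj' : DD t j' = true) (a : Fin 10) (h : pa j = a ∨ pb j = a) (h' : pa j' = a ∨ pb j' = a) :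
    Relation.ReflTransGen (Sh G (CL P t)) (P.ed j 0) (P.ed j' 0) := by
  obtain ⟨i, hi, h1⟩ := end_edge P j a h
  obtain ⟨i', hi', h1'⟩ := end_edge P j' a h'
  have s1 := conn_path P t j hj i hi
  have s2 := rtg_symm (conn_path P t j' hj' i' hi')
  exact (s1.tail ⟨(ed_mem_CL P t j i hi).2 hj, (ed_mem_CL P t j' i' hi').2 hj', P.br a, h1,
    h1'⟩).trans s2

theorem DD_DL (t : Fin 5) (m : Fin 8) : DD t (DL t m) = true := by
  unfold DD
  exact decide_eq_true ⟨m, rfl⟩

theorem conn_base (P : PetersenSubdivision G) (t : Fin 5) (m : Fin 8) :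
    Relation.ReflTransGen (Sh G (CL P t)) (P.ed (DL t 0) 0) (P.ed (DL t m) 0) := by
  induction m using Fin.induction with
  | zero => exact Relation.ReflTransGen.refl
  | succ m ih =>
    obtain ⟨a, h1, h2⟩ := DD_step t m
    exact ih.trans (conn_adj P t _ _ (DD_DL t _) (DD_DL t _) a h1 h2)

theorem conn_all (P : PetersenSubdivision G) (t : Fin 5) (e : E) (he : e ∈ CL P t) :
    Relation.ReflTransGen (Sh G (CL P t)) (P.ed (DL t 0) 0) e := by
  obtain ⟨j, i, hj, hi, rfl⟩ := (mem_CL P t e).1 he
  obtain ⟨m, hm⟩ : ∃ m, DL t m = j := of_decide_eq_true hj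
  subst hm
  exact (conn_base P t m).trans (conn_path P t _ hj i hi)

theorem circuit_CL (P : PetersenSubdivision G) (t : Fin 5) : G.IsCircuit (CL P t) := by
  refine ⟨⟨P.ed (DL t 0) 0, (ed_mem_CL P t _ 0 (Nat.zero_le _)).2 (DD_DL t 0)⟩, deg_CL P t, ?_⟩
  intro e he f hf
  have h1 := rtg_symm (conn_all P t e he)
  have h2 := h1.trans (conn_all P t f hf)
  exact rtg_mono h2

theorem cover_even (P : PetersenSubdivision G) (m : ℕ) : HasCover G (wgt P (2 * m)) := by
  refine ⟨m • ((univ : Finset (Fin 5)).val.map (CL P)), ?_, ?_⟩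
  · intro C hC
    have h1 := Multiset.mem_of_mem_nsmul hC
    obtain ⟨t, -, rfl⟩ := Multiset.mem_map.1 h1
    exact circuit_CL P t
  · intro e
    rw [Multiset.countP_nsmul, Multiset.countP_map]
    by_cases hin : ∃ j i, i ≤ P.len j ∧ e = P.ed j i
    swap
    · have h0 : wgt P (2 * m) e = 0 := wgt_zero P _ e fun j i hi h => hin ⟨j, i, hi, h.symm⟩
      have h1 : (univ : Finset (Fin 5)).val.filter (fun t => e ∈ CL P t) = 0 := by
        rw [Multiset.filter_eq_nil]
        intro t _ ht
        exact hin (inP_CL P t e ht)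
      rw [h0, h1, Multiset.card_zero, mul_zero]
    · obtain ⟨j, i, hi, rfl⟩ := hin
      rw [wgt_ed P _ j i hi]
      have h1 : (univ : Finset (Fin 5)).val.filter (fun t => P.ed j i ∈ CL P t) =
          (univ.filter (fun t : Fin 5 => DD t j = true)).val := by
        rw [Finset.filter_val]
        refine Multiset.filter_congr fun t _ => ?_
        exact ed_mem_CL P t j i hi
      rw [h1]
      have h2 := DD_count j
      rw [Finset.card_def] at h2
      rw [h2]
      unfold wt
      split_ifs <;> ring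

end graph

end Pool.Agent.Q211.CC
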