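import Pool.Agent.W51.FCC.Defs

set_option autoImplicit false
set_option linter.unusedSectionVars false

/-!
Graphs with a subdivision of the Petersen graph, weights with values `0`, `k`, `2 k`, `k` odd.
-/

namespace Pool.Agent.Q211.CC

open Finset
open Pool.Agent.H126R2.CDC (MGraph)
open Pool.Agent.W51.FCC

/-! ### Crossings along a path -/

/-- the number of changes of `b` on `0, …, n` -/
def cr (b : ℕ → Bool) (n : ℕ) : ℕ := ((range n).filter (fun i => b i ≠ b (i + 1))).card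

theorem cr_succ (b : ℕ → Bool) (n : ℕ) :
    cr b (n + 1) = cr b n + (if b n ≠ b (n + 1) then 1 else 0) := by
  unfold cr
  rw [range_add_one, filter_insert]
  split_ifs with h
  · rw [card_insert_of_notMem (by simp)]
  · rw [add_zero]

theorem cr_facts (b : ℕ → Bool) (n : ℕ) :
    (cr b n + (b 0).toNat + (b n).toNat) % 2 = 0 ∧
      (b 0).toNat ≤ cr b n + (b n).toNat ∧ (b n).toNat ≤ cr b n + (b 0).toNat := by
  induction n with
  | zero =>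
    have h : cr b 0 = 0 := by simp [cr]
    rw [h]
    refine ⟨by omega, by omega, by omega⟩
  | succ n ih =>
    rw [cr_succ]
    obtain ⟨h1, h2, h3⟩ := ih
    cases h4 : b n <;> cases h5 : b (n + 1) <;> simp [h4] at h1 h2 h3 ⊢ <;> omega

/-! ### The Petersen graph -/

/-- the weights: `2 k` on the spokes, `k` on the pentagons -/
def wt (k : ℕ) (j : Fin 15) : ℕ := if 5 ≤ j.val ∧ j.val < 10 then 2 * k else k

/-- first pentagon edge at a vertex -/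
def J0 : Fin 10 → Fin 15 := ![0, 1, 2, 3, 4, 10, 11, 12, 13, 14]
/-- second pentagon edge at a vertex -/
def J1 : Fin 10 → Fin 15 := ![4, 0, 1, 2, 3, 13, 14, 10, 11, 12]
/-- the spoke at a vertex -/
def J2 : Fin 10 → Fin 15 := ![5, 6, 7, 8, 9, 5, 6, 7, 8, 9]

theorem star : ∀ a : Fin 10,
    univ.filter (fun j : Fin 15 => pa j = a ∨ pb j = a) = {J0 a, J1 a, J2 a} := by decide

theorem star_ne : ∀ a : Fin 10, J0 a ≠ J1 a ∧ J0 a ≠ J2 a ∧ J1 a ≠ J2 a := by decide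

theorem pa_ne_pb : ∀ j : Fin 15, pa j ≠ pb j := by decide

theorem sum15 (f : Fin 15 → ℕ) : ∑ j, f j = f 0 + f 1 + f 2 + f 3 + f 4 + f 5 + f 6 + f 7 + f 8 +
    f 9 + f 10 + f 11 + f 12 + f 13 + f 14 := by
  simp [Fin.sum_univ_succ]
  ring

theorem sum_wt (k : ℕ) (c : Fin 15 → ℕ) : ∑ j, wt k j * c j =
    k * (c 0 + c 1 + c 2 + c 3 + c 4 + 2 * c 5 + 2 * c 6 + 2 * c 7 + 2 * c 8 + 2 * c 9 +
      c 10 + c 11 + c 12 + c 13 + c 14) := by
  rw [sum15]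
  have e0 : wt k 0 = k := rfl
  have e1 : wt k 1 = k := rfl
  have e2 : wt k 2 = k := rfl
  have e3 : wt k 3 = k := rfl
  have e4 : wt k 4 = k := rfl
  have e5 : wt k 5 = 2 * k := rfl
  have e6 : wt k 6 = 2 * k := rfl
  have e7 : wt k 7 = 2 * k := rfl
  have e8 : wt k 8 = 2 * k := rfl
  have e9 : wt k 9 = 2 * k := rfl
  have e10 : wt k 10 = k := rfl
  have e11 : wt k 11 = k := rfl
  have e12 : wt k 12 = k := rfl
  have e13 : wt k 13 = k := rfl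
  have e14 : wt k 14 = k := rfl
  rw [e0, e1, e2, e3, e4, e5, e6, e7, e8, e9, e10, e11, e12, e13, e14]
  ring

theorem eul (k : ℕ) (c : Fin 15 → ℕ) (y : Fin 10 → ℕ)
    (h : ∀ j, (c j + y (pa j) + y (pb j)) % 2 = 0) : Even (∑ j, wt k j * c j) := by
  rw [sum_wt]
  refine Even.mul_left ?_ k
  have h0 : (c 0 + y 0 + y 1) % 2 = 0 := h 0
  have h1 : (c 1 + y 1 + y 2) % 2 = 0 := h 1
  have h2 : (c 2 + y 2 + y 3) % 2 = 0 := h 2
  have h3 : (c 3 + y 3 + y 4) % 2 = 0 := h 3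
  have h4 : (c 4 + y 4 + y 0) % 2 = 0 := h 4
  have h10 : (c 10 + y 5 + y 7) % 2 = 0 := h 10
  have h11 : (c 11 + y 6 + y 8) % 2 = 0 := h 11
  have h12 : (c 12 + y 7 + y 9) % 2 = 0 := h 12
  have h13 : (c 13 + y 8 + y 5) % 2 = 0 := h 13
  have h14 : (c 14 + y 9 + y 6) % 2 = 0 := h 14
  rw [Nat.even_iff]
  omega

theorem adm1 (c : Fin 15 → ℕ) (y : Fin 10 → ℕ) (hy : ∀ a, y a ≤ 1)
    (h1 : ∀ j, (c j + y (pa j) + y (pb j)) % 2 = 0)
    (h2 : ∀ j, y (pa j) ≤ c j + y (pb j) ∧ y (pb j) ≤ c j + y (pa j))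
    (j : Fin 15) (hc : 1 ≤ c j) : 2 * wt 1 j ≤ c 0 + c 1 + c 2 + c 3 + c 4 + 2 * c 5 + 2 * c 6 +
      2 * c 7 + 2 * c 8 + 2 * c 9 + c 10 + c 11 + c 12 + c 13 + c 14 := by
  have a0 : y 0 ≤ c 0 + y 1 ∧ y 1 ≤ c 0 + y 0 := h2 0
  have a1 : y 1 ≤ c 1 + y 2 ∧ y 2 ≤ c 1 + y 1 := h2 1
  have a2 : y 2 ≤ c 2 + y 3 ∧ y 3 ≤ c 2 + y 2 := h2 2
  have a3 : y 3 ≤ c 3 + y 4 ∧ y 4 ≤ c 3 + y 3 := h2 3
  have a4 : y 4 ≤ c 4 + y 0 ∧ y 0 ≤ c 4 + y 4 := h2 4
  have a5 : y 0 ≤ c 5 + y 5 ∧ y 5 ≤ c 5 + y 0 := h2 5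
  have a6 : y 1 ≤ c 6 + y 6 ∧ y 6 ≤ c 6 + y 1 := h2 6
  have a7 : y 2 ≤ c 7 + y 7 ∧ y 7 ≤ c 7 + y 2 := h2 7
  have a8 : y 3 ≤ c 8 + y 8 ∧ y 8 ≤ c 8 + y 3 := h2 8
  have a9 : y 4 ≤ c 9 + y 9 ∧ y 9 ≤ c 9 + y 4 := h2 9
  have a10 : y 5 ≤ c 10 + y 7 ∧ y 7 ≤ c 10 + y 5 := h2 10
  have a11 : y 6 ≤ c 11 + y 8 ∧ y 8 ≤ c 11 + y 6 := h2 11
  have a12 : y 7 ≤ c 12 + y 9 ∧ y 9 ≤ c 12 + y 7 := h2 12
  have a13 : y 8 ≤ c 13 + y 5 ∧ y 5 ≤ c 13 + y 8 := h2 13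
  have a14 : y 9 ≤ c 14 + y 6 ∧ y 6 ≤ c 14 + y 9 := h2 14
  have hj := h1 j
  have hya := hy (pa j)
  have hyb := hy (pb j)
  by_cases h3 : 2 ≤ c j
  · clear a0 a1 a2 a3 a4 a5 a6 a7 a8 a9 a10 a11 a12 a13 a14 hj hya hyb
    fin_cases j <;> simp only [wt] at h3 ⊢ <;> simp at h3 ⊢ <;> omega
  · have h4 : c j = 1 := by omega
    have h5 : y (pa j) + y (pb j) = 1 := by omega
    clear hc hj hya hyb h3 h1 h2 hy
    fin_cases j
    · have h5' : y 0 + y 1 = 1 := h5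
      have h4' : c 0 = 1 := h4
      have hw : wt 1 0 = 1 := rfl
      show 2 * wt 1 0 ≤ _
      rw [hw]
      clear h4 h5
      rcases (by omega : (y 0 = 0 ∧ y 1 = 1) ∨ (y 0 = 1 ∧ y 1 = 0)) with h | h <;> linarith [h.1, h.2, a0.1, a0.2, a1.1, a1.2, a2.1, a2.2, a3.1, a3.2, a4.1, a4.2, a5.1, a5.2, a6.1, a6.2, a7.1, a7.2, a8.1, a8.2, a9.1, a9.2, a10.1, a10.2, a11.1, a11.2, a12.1, a12.2, a13.1, a13.2, a14.1, a14.2]
    · have h5' : y 1 + y 2 = 1 := h5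
      have h4' : c 1 = 1 := h4
      have hw : wt 1 1 = 1 := rfl
      show 2 * wt 1 1 ≤ _
      rw [hw]
      clear h4 h5
      rcases (by omega : (y 1 = 0 ∧ y 2 = 1) ∨ (y 1 = 1 ∧ y 2 = 0)) with h | h <;> linarith [h.1, h.2, a0.1, a0.2, a1.1, a1.2, a2.1, a2.2, a3.1, a3.2, a4.1, a4.2, a5.1, a5.2, a6.1, a6.2, a7.1, a7.2, a8.1, a8.2, a9.1, a9.2, a10.1, a10.2, a11.1, a11.2, a12.1, a12.2, a13.1, a13.2, a14.1, a14.2]
    · have h5' : y 2 + y 3 = 1 := h5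
      have h4' : c 2 = 1 := h4
      have hw : wt 1 2 = 1 := rfl
      show 2 * wt 1 2 ≤ _
      rw [hw]
      clear h4 h5
      rcases (by omega : (y 2 = 0 ∧ y 3 = 1) ∨ (y 2 = 1 ∧ y 3 = 0)) with h | h <;> linarith [h.1, h.2, a0.1, a0.2, a1.1, a1.2, a2.1, a2.2, a3.1, a3.2, a4.1, a4.2, a5.1, a5.2, a6.1, a6.2, a7.1, a7.2, a8.1, a8.2, a9.1, a9.2, a10.1, a10.2, a11.1, a11.2, a12.1, a12.2, a13.1, a13.2, a14.1, a14.2]
    · have h5' : y 3 + y 4 = 1 := h5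
      have h4' : c 3 = 1 := h4
      have hw : wt 1 3 = 1 := rfl
      show 2 * wt 1 3 ≤ _
      rw [hw]
      clear h4 h5
      rcases (by omega : (y 3 = 0 ∧ y 4 = 1) ∨ (y 3 = 1 ∧ y 4 = 0)) with h | h <;> linarith [h.1, h.2, a0.1, a0.2, a1.1, a1.2, a2.1, a2.2, a3.1, a3.2, a4.1, a4.2, a5.1, a5.2, a6.1, a6.2, a7.1, a7.2, a8.1, a8.2, a9.1, a9.2, a10.1, a10.2, a11.1, a11.2, a12.1, a12.2, a13.1, a13.2, a14.1, a14.2]
    · have h5' : y 4 + y 0 = 1 := h5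
      have h4' : c 4 = 1 := h4
      have hw : wt 1 4 = 1 := rfl
      show 2 * wt 1 4 ≤ _
      rw [hw]
      clear h4 h5
      rcases (by omega : (y 4 = 0 ∧ y 0 = 1) ∨ (y 4 = 1 ∧ y 0 = 0)) with h | h <;> linarith [h.1, h.2, a0.1, a0.2, a1.1, a1.2, a2.1, a2.2, a3.1, a3.2, a4.1, a4.2, a5.1, a5.2, a6.1, a6.2, a7.1, a7.2, a8.1, a8.2, a9.1, a9.2, a10.1, a10.2, a11.1, a11.2, a12.1, a12.2, a13.1, a13.2, a14.1, a14.2]
    · have h5' : y 0 + y 5 = 1 := h5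
      have h4' : c 5 = 1 := h4
      have hw : wt 1 5 = 2 := rfl
      show 2 * wt 1 5 ≤ _
      rw [hw]
      clear h4 h5
      rcases (by omega : (y 0 = 0 ∧ y 5 = 1) ∨ (y 0 = 1 ∧ y 5 = 0)) with h | h <;> linarith [h.1, h.2, a0.1, a0.2, a1.1, a1.2, a2.1, a2.2, a3.1, a3.2, a4.1, a4.2, a5.1, a5.2, a6.1, a6.2, a7.1, a7.2, a8.1, a8.2, a9.1, a9.2, a10.1, a10.2, a11.1, a11.2, a12.1, a12.2, a13.1, a13.2, a14.1, a14.2]
    · have h5' : y 1 + y 6 = 1 := h5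
      have h4' : c 6 = 1 := h4
      have hw : wt 1 6 = 2 := rfl
      show 2 * wt 1 6 ≤ _
      rw [hw]
      clear h4 h5
      rcases (by omega : (y 1 = 0 ∧ y 6 = 1) ∨ (y 1 = 1 ∧ y 6 = 0)) with h | h <;> linarith [h.1, h.2, a0.1, a0.2, a1.1, a1.2, a2.1, a2.2, a3.1, a3.2, a4.1, a4.2, a5.1, a5.2, a6.1, a6.2, a7.1, a7.2, a8.1, a8.2, a9.1, a9.2, a10.1, a10.2, a11.1, a11.2, a12.1, a12.2, a13.1, a13.2, a14.1, a14.2]
    · have h5' : y 2 + y 7 = 1 := h5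
      have h4' : c 7 = 1 := h4
      have hw : wt 1 7 = 2 := rfl
      show 2 * wt 1 7 ≤ _
      rw [hw]
      clear h4 h5
      rcases (by omega : (y 2 = 0 ∧ y 7 = 1) ∨ (y 2 = 1 ∧ y 7 = 0)) with h | h <;> linarith [h.1, h.2, a0.1, a0.2, a1.1, a1.2, a2.1, a2.2, a3.1, a3.2, a4.1, a4.2, a5.1, a5.2, a6.1, a6.2, a7.1, a7.2, a8.1, a8.2, a9.1, a9.2, a10.1, a10.2, a11.1, a11.2, a12.1, a12.2, a13.1, a13.2, a14.1, a14.2]
    · have h5' : y 3 + y 8 = 1 := h5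
      have h4' : c 8 = 1 := h4
      have hw : wt 1 8 = 2 := rfl
      show 2 * wt 1 8 ≤ _
      rw [hw]
      clear h4 h5
      rcases (by omega : (y 3 = 0 ∧ y 8 = 1) ∨ (y 3 = 1 ∧ y 8 = 0)) with h | h <;> linarith [h.1, h.2, a0.1, a0.2, a1.1, a1.2, a2.1, a2.2, a3.1, a3.2, a4.1, a4.2, a5.1, a5.2, a6.1, a6.2, a7.1, a7.2, a8.1, a8.2, a9.1, a9.2, a10.1, a10.2, a11.1, a11.2, a12.1, a12.2, a13.1, a13.2, a14.1, a14.2]
    · have h5' : y 4 + y 9 = 1 := h5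
      have h4' : c 9 = 1 := h4
      have hw : wt 1 9 = 2 := rfl
      show 2 * wt 1 9 ≤ _
      rw [hw]
      clear h4 h5
      rcases (by omega : (y 4 = 0 ∧ y 9 = 1) ∨ (y 4 = 1 ∧ y 9 = 0)) with h | h <;> linarith [h.1, h.2, a0.1, a0.2, a1.1, a1.2, a2.1, a2.2, a3.1, a3.2, a4.1, a4.2, a5.1, a5.2, a6.1, a6.2, a7.1, a7.2, a8.1, a8.2, a9.1, a9.2, a10.1, a10.2, a11.1, a11.2, a12.1, a12.2, a13.1, a13.2, a14.1, a14.2]
    · have h5' : y 5 + y 7 = 1 := h5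
      have h4' : c 10 = 1 := h4
      have hw : wt 1 10 = 1 := rfl
      show 2 * wt 1 10 ≤ _
      rw [hw]
      clear h4 h5
      rcases (by omega : (y 5 = 0 ∧ y 7 = 1) ∨ (y 5 = 1 ∧ y 7 = 0)) with h | h <;> linarith [h.1, h.2, a0.1, a0.2, a1.1, a1.2, a2.1, a2.2, a3.1, a3.2, a4.1, a4.2, a5.1, a5.2, a6.1, a6.2, a7.1, a7.2, a8.1, a8.2, a9.1, a9.2, a10.1, a10.2, a11.1, a11.2, a12.1, a12.2, a13.1, a13.2, a14.1, a14.2]
    · have h5' : y 6 + y 8 = 1 := h5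
      have h4' : c 11 = 1 := h4
      have hw : wt 1 11 = 1 := rfl
      show 2 * wt 1 11 ≤ _
      rw [hw]
      clear h4 h5
      rcases (by omega : (y 6 = 0 ∧ y 8 = 1) ∨ (y 6 = 1 ∧ y 8 = 0)) with h | h <;> linarith [h.1, h.2, a0.1, a0.2, a1.1, a1.2, a2.1, a2.2, a3.1, a3.2, a4.1, a4.2, a5.1, a5.2, a6.1, a6.2, a7.1, a7.2, a8.1, a8.2, a9.1, a9.2, a10.1, a10.2, a11.1, a11.2, a12.1, a12.2, a13.1, a13.2, a14.1, a14.2]
    · have h5' : y 7 + y 9 = 1 := h5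
      have h4' : c 12 = 1 := h4
      have hw : wt 1 12 = 1 := rfl
      show 2 * wt 1 12 ≤ _
      rw [hw]
      clear h4 h5
      rcases (by omega : (y 7 = 0 ∧ y 9 = 1) ∨ (y 7 = 1 ∧ y 9 = 0)) with h | h <;> linarith [h.1, h.2, a0.1, a0.2, a1.1, a1.2, a2.1, a2.2, a3.1, a3.2, a4.1, a4.2, a5.1, a5.2, a6.1, a6.2, a7.1, a7.2, a8.1, a8.2, a9.1, a9.2, a10.1, a10.2, a11.1, a11.2, a12.1, a12.2, a13.1, a13.2, a14.1, a14.2]
    · have h5' : y 8 + y 5 = 1 := h5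
      have h4' : c 13 = 1 := h4
      have hw : wt 1 13 = 1 := rfl
      show 2 * wt 1 13 ≤ _
      rw [hw]
      clear h4 h5
      rcases (by omega : (y 8 = 0 ∧ y 5 = 1) ∨ (y 8 = 1 ∧ y 5 = 0)) with h | h <;> linarith [h.1, h.2, a0.1, a0.2, a1.1, a1.2, a2.1, a2.2, a3.1, a3.2, a4.1, a4.2, a5.1, a5.2, a6.1, a6.2, a7.1, a7.2, a8.1, a8.2, a9.1, a9.2, a10.1, a10.2, a11.1, a11.2, a12.1, a12.2, a13.1, a13.2, a14.1, a14.2]
    · have h5' : y 9 + y 6 = 1 := h5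
      have h4' : c 14 = 1 := h4
      have hw : wt 1 14 = 1 := rfl
      show 2 * wt 1 14 ≤ _
      rw [hw]
      clear h4 h5
      rcases (by omega : (y 9 = 0 ∧ y 6 = 1) ∨ (y 9 = 1 ∧ y 6 = 0)) with h | h <;> linarith [h.1, h.2, a0.1, a0.2, a1.1, a1.2, a2.1, a2.2, a3.1, a3.2, a4.1, a4.2, a5.1, a5.2, a6.1, a6.2, a7.1, a7.2, a8.1, a8.2, a9.1, a9.2, a10.1, a10.2, a11.1, a11.2, a12.1, a12.2, a13.1, a13.2, a14.1, a14.2]

/-- admissibility on the Petersen graph -/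
theorem adm (k : ℕ) (c : Fin 15 → ℕ) (y : Fin 10 → ℕ) (hy : ∀ a, y a ≤ 1)
    (h1 : ∀ j, (c j + y (pa j) + y (pb j)) % 2 = 0)
    (h2 : ∀ j, y (pa j) ≤ c j + y (pb j) ∧ y (pb j) ≤ c j + y (pa j))
    (j : Fin 15) (hc : 1 ≤ c j) : 2 * wt k j ≤ ∑ j', wt k j' * c j' := by
  rw [sum_wt]
  have h := adm1 c y hy h1 h2 j hc
  have e : wt k j = k * wt 1 j := by
    unfold wt
    split_ifs <;> ring
  rw [e]
  calc 2 * (k * wt 1 j) = k * (2 * wt 1 j) := by ring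
    _ ≤ _ := Nat.mul_le_mul_left k h

/-! ### The weight -/

section graph

variable {V E : Type} [Fintype V] [DecidableEq V] [Fintype E] [DecidableEq E] {G : MGraph V E}

/-- the weight on the edges of the subdivision -/
def wgt (P : PetersenSubdivision G) (k : ℕ) (e : E) : ℕ :=
  ∑ j, ∑ i ∈ range (P.len j + 1), if P.ed j i = e then wt k j else 0

theorem wgt_zero (P : PetersenSubdivision G) (k : ℕ) (e : E)
    (h : ∀ j i, i ≤ P.len j → P.ed j i ≠ e) : wgt P k e = 0 := by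
  unfold wgt
  refine Finset.sum_eq_zero fun j _ => Finset.sum_eq_zero fun i hi => ?_
  rw [if_neg (h j i (Nat.lt_succ_iff.1 (mem_range.1 hi)))]

theorem wgt_ed (P : PetersenSubdivision G) (k : ℕ) (j : Fin 15) (i : ℕ) (hi : i ≤ P.len j) :
    wgt P k (P.ed j i) = wt k j := by
  unfold wgt
  rw [Finset.sum_eq_single j, Finset.sum_eq_single i]
  · rw [if_pos rfl]
  · intro i' hi' hne
    rw [if_neg]
    intro h
    exact hne (P.ed_inj j i' j i (Nat.lt_succ_iff.1 (mem_range.1 hi')) hi h).2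
  · intro h
    exact absurd (mem_range.2 (Nat.lt_succ_iff.2 hi)) h
  · intro j' _ hne
    refine Finset.sum_eq_zero fun i' hi' => ?_
    rw [if_neg]
    intro h
    exact hne (P.ed_inj j' i' j i (Nat.lt_succ_iff.1 (mem_range.1 hi')) hi h).1
  · intro h
    exact absurd (mem_univ j) h

theorem wgt_cases (P : PetersenSubdivision G) (k : ℕ) (e : E) :
    wgt P k e = 0 ∨ ∃ j i, i ≤ P.len j ∧ e = P.ed j i := by
  by_cases h : ∀ j i, i ≤ P.len j → P.ed j i ≠ e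
  · exact Or.inl (wgt_zero P k e h)
  · push Not at h
    obtain ⟨j, i, hi, he⟩ := h
    exact Or.inr ⟨j, i, hi, he.symm⟩

/-- the side of the vertices of a path -/
def bb (P : PetersenSubdivision G) (X : Finset V) (j : Fin 15) (i : ℕ) : Bool :=
  decide (P.vx j i ∈ X)

theorem mem_cut (P : PetersenSubdivision G) (X : Finset V) (j : Fin 15) (i : ℕ)
    (hi : i ≤ P.len j) : P.ed j i ∈ cut G X ↔ bb P X j i ≠ bb P X j (i + 1) := by
  unfold cut bb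
  rw [mem_filter, P.ends j i hi]
  simp only [mem_univ, true_and, Sym2.mem_iff]
  by_cases h1 : P.vx j i ∈ X <;> by_cases h2 : P.vx j (i + 1) ∈ X <;> simp [h1, h2]

/-- the number of edges of a path in the cut -/
def cc (P : PetersenSubdivision G) (X : Finset V) (j : Fin 15) : ℕ :=
  cr (bb P X j) (P.len j + 1)

theorem cut_sum (P : PetersenSubdivision G) (k : ℕ) (X : Finset V) :
    ∑ e ∈ cut G X, wgt P k e = ∑ j, wt k j * cc P X j := by
  unfold wgt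
  rw [Finset.sum_comm]
  refine Finset.sum_congr rfl fun j _ => ?_
  rw [Finset.sum_comm]
  have h1 : ∀ i ∈ range (P.len j + 1),
      (∑ e ∈ cut G X, if P.ed j i = e then wt k j else 0) =
        if bb P X j i ≠ bb P X j (i + 1) then wt k j else 0 := by
    intro i hi
    rw [Finset.sum_ite_eq]
    exact if_congr (mem_cut P X j i (Nat.lt_succ_iff.1 (mem_range.1 hi))) rfl rfl
  rw [Finset.sum_congr rfl h1, ← Finset.sum_filter, Finset.sum_const, smul_eq_mul, mul_comm]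
  rfl

/-- the side of the branch vertices -/
def yy (P : PetersenSubdivision G) (X : Finset V) (a : Fin 10) : ℕ :=
  (decide (P.br a ∈ X)).toNat

theorem yy_le (P : PetersenSubdivision G) (X : Finset V) (a : Fin 10) : yy P X a ≤ 1 := by
  unfold yy
  exact Bool.toNat_le _

theorem cc_facts (P : PetersenSubdivision G) (X : Finset V) (j : Fin 15) :
    (cc P X j + yy P X (pa j) + yy P X (pb j)) % 2 = 0 ∧
      yy P X (pa j) ≤ cc P X j + yy P X (pb j) ∧ yy P X (pb j) ≤ cc P X j + yy P X (pa j) := by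
  have h := cr_facts (bb P X j) (P.len j + 1)
  have e1 : (bb P X j 0).toNat = yy P X (pa j) := by
    unfold bb yy
    rw [P.start j]
  have e2 : (bb P X j (P.len j + 1)).toNat = yy P X (pb j) := by
    unfold bb yy
    rw [P.stop j]
  rw [e1, e2] at h
  exact h

theorem eulerian (P : PetersenSubdivision G) (k : ℕ) : Eulerian G (wgt P k) := by
  intro X
  rw [cut_sum]
  exact eul k (cc P X) (yy P X) fun j => (cc_facts P X j).1

theorem admissible (P : PetersenSubdivision G) (k : ℕ) : Admissible G (wgt P k) := by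
  intro X e he
  rcases wgt_cases P k e with h | ⟨j, i, hi, rfl⟩
  · rw [h]
    exact Nat.zero_le _
  · have h1 : 1 ≤ cc P X j := by
      unfold cc cr
      refine Nat.succ_le_of_lt (Finset.card_pos.2 ⟨i, ?_⟩)
      rw [mem_filter]
      exact ⟨mem_range.2 (Nat.lt_succ_iff.2 hi), (mem_cut P X j i hi).1 he⟩
    have h2 := adm k (cc P X) (yy P X) (yy_le P X) (fun j => (cc_facts P X j).1)
      (fun j => (cc_facts P X j).2) j h1
    rw [← cut_sum, ← Finset.add_sum_erase _ _ he, wgt_ed P k j i hi] at h2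
    rw [wgt_ed P k j i hi]
    omega

/-! ### No faithful cover -/

theorem pos_inner (P : PetersenSubdivision G) {j : Fin 15} {i : ℕ} (h1 : 1 ≤ i)
    (h2 : i ≤ P.len j) {j' : Fin 15} {i' : ℕ} (h3 : i' ≤ P.len j' + 1)
    (h : P.vx j i = P.vx j' i') : j = j' ∧ i = i' := by
  rcases Nat.eq_zero_or_pos i' with h4 | h4
  · rw [h4, P.start j'] at h
    exact absurd h (P.inner_ne j i _ h1 h2)
  · rcases Nat.lt_or_ge (P.len j') i' with h5 | h5
    · have h6 : i' = P.len j' + 1 := by omega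
      rw [h6, P.stop j'] at h
      exact absurd h (P.inner_ne j i _ h1 h2)
    · exact P.inner_inj j i j' i' h1 h2 h4 h5 h

theorem pos_br (P : PetersenSubdivision G) {j : Fin 15} {i : ℕ} (h1 : i ≤ P.len j + 1)
    {a : Fin 10} (h : P.vx j i = P.br a) : (i = 0 ∧ pa j = a) ∨ (i = P.len j + 1 ∧ pb j = a) := by
  rcases Nat.eq_zero_or_pos i with h4 | h4
  · rw [h4, P.start j] at h
    exact Or.inl ⟨h4, P.br_inj h⟩
  · rcases Nat.lt_or_ge (P.len j) i with h5 | h5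
    · have h6 : i = P.len j + 1 := by omega
      rw [h6, P.stop j] at h
      exact Or.inr ⟨h6, P.br_inj h⟩
    · exact absurd h (P.inner_ne j i _ h4 h5)

theorem vx_ne (P : PetersenSubdivision G) (j : Fin 15) (i : ℕ) (hi : i ≤ P.len j) :
    P.vx j i ≠ P.vx j (i + 1) := by
  intro h
  rcases Nat.eq_zero_or_pos i with h4 | h4
  · rcases Nat.lt_or_ge (P.len j) (i + 1) with h5 | h5
    · have h6 : i + 1 = P.len j + 1 := by omega
      rw [h6, h4, P.start j, P.stop j] at h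
      exact pa_ne_pb j (P.br_inj h)
    · rw [h4, P.start j] at h
      exact P.inner_ne j (0 + 1) (pa j) (by omega) (by omega) h.symm
  · have h5 := (pos_inner P h4 hi (by omega) h).2
    omega

end graph

end Pool.Agent.Q211.CC
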